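import Pool.Agent.Helper89.TQ.Ctx

set_option autoImplicit false
set_option linter.all false
set_option maxHeartbeats 4000000

namespace Pool.Agent.Helper82.TQ

open Pool.Agent.Helper89.TQ

def Hd (p : Prop) : Prop := p

theorem c0_22_23_33_k3 {n1 n2 n3 A1 A2 A3 B1 B2 B3 m11_1 m11_2 m11_3 m13_1 m13_2 m13_3 m22_1 m22_2 m22_3 m23_1 m23_2 m23_3 m33_1 m33_2 m33_3 : ℤ}
    (C : Ctx0 n1 n2 n3 A1 A2 A3 B1 B2 B3 m11_1 m11_2 m11_3 m13_1 m13_2 m13_3 m22_1 m22_2 m22_3 m23_1 m23_2 m23_3 m33_1 m33_2 m33_3)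
    (e0 : 0 < B2)
    (e1 : 0 < A2)
    (e2 : 0 < B3)
    (e3 : 0 < A3)
    (s1 : 3 * A1 + 0 * B1 ≤ m22_1 + m23_1 + m33_1)
    (s2 : 3 * A2 + 0 * B2 ≤ m22_2 + m23_2 + m33_2)
    (s3 : 3 * A3 + 0 * B3 ≤ m22_3 + m23_3 + m33_3) : False := by
  have h0 := C.a0
  have h1 := C.a1
  have h2 := C.a2
  have h3 := C.a3
  have h4 := C.a4
  have h5 := C.a5
  have h6 := C.b0
  have h7 := C.b1
  have h8 := C.b2
  have h9 := C.b3
  have h10 := C.b4
  have h11 := C.b5
  have h12 := C.o0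
  have h13 := C.o1
  have h14 := C.o2
  have h15 : Hd _ := C.t12
  have h16 : Hd _ := C.t23
  have h17 := C.f22_0
  have h18 := C.f22_1
  have h19 : Hd _ := C.f22_2
  have h20 := C.f22_3
  have h21 := C.f22_4
  have h22 : Hd _ := C.f22_5
  have h23 := C.f22_6
  have h24 := C.f23_0
  have h25 := C.f23_1
  have h26 := C.f23_2
  have h27 : Hd _ := C.f23_3
  have h28 := C.f23_4
  have h29 := C.f23_5
  have h30 := C.f23_6
  have h31 : Hd _ := C.f23_7
  have h32 := C.f23_8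
  have h33 := C.f23_9
  have h34 : Hd _ := C.f23_10
  have h35 := C.f33_0
  have h36 := C.f33_1
  have h37 : Hd _ := C.f33_2
  have h38 := C.f33_3
  have h39 := C.f33_4
  have h40 : Hd _ := C.f33_5
  have h41 := C.f33_6
  have h42 := C.f33_7
  have h43 : Hd _ := C.f33_8
  have q1 : Hd _ := (show (m22_1 + m33_1 < 2 * A1) ∨ (m22_2 + m33_2 < 2 * A2) ∨ (m22_3 + m33_3 < 2 * A3) by have := C.p22_33A (by omega) (by omega); clear C h15 h16 h19 h22 h27 h31 h34 h37 h40 h43; omega)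
  have q2 : Hd _ := (show (m23_1 + m33_1 < 2 * A1) ∨ (m23_2 + m33_2 < 2 * A2) ∨ (m23_3 + m33_3 < 2 * A3) by have := C.p23_33A (by omega) (by omega) (by omega); clear C h15 h16 h19 h22 h27 h31 h34 h37 h40 h43; omega)
  have q3 : Hd _ := (show (m22_1 + m23_1 < 2 * A1) ∨ (m22_2 + m23_2 < 2 * A2) ∨ (m22_3 + m23_3 < 2 * A3) by have := C.p22_23A (by omega) (by omega) (by omega); clear C h15 h16 h19 h22 h27 h31 h34 h37 h40 h43; omega)
  rcases q1 with q1 | q1 | q1 <;> try omega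
  all_goals (rcases q2 with q2 | q2 | q2 <;> try omega)
  all_goals (rcases q3 with q3 | q3 | q3 <;> try omega)
  all_goals (rcases h37 with h37 | h37 <;> try omega)
  all_goals (rcases h19 with h19 | h19 <;> try omega)
  all_goals (rcases h27 with h27 | h27 | h27 <;> try omega)
  all_goals (rcases h40 with h40 | h40 <;> try omega)
  all_goals (rcases h22 with h22 | h22 <;> try omega)
  all_goals (rcases h31 with h31 | h31 | h31 <;> try omega)
  all_goals (rcases h43 with h43 | h43 <;> try omega)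
  all_goals (rcases h34 with h34 | h34 <;> try omega)
  all_goals (rcases h15 with h15 | h15 <;> try omega)
  all_goals (rcases h16 with h16 | h16 <;> try omega)
  all_goals (have r1 : Hd _ := (show (n1 < A1 + 1) ∨ (A2 < A1 + 1) ∨ (A3 < A2 + 1) ∨ (B1 < 1) ∨ (B1 + n2 < B2 + 1) ∨ (B2 + n3 < B3 + 1) by have := C.tmzp; clear C; omega))
  all_goals (rcases r1 with r1 | r1 | r1 | r1 | r1 | r1 <;> try omega)
  all_goals (have r2 : Hd _ := (show (m13_1 + m23_1 < 2 * A1) ∨ (m13_2 + m23_2 < 2 * A2) ∨ (m13_3 + m23_3 < 2 * A3) by have := C.p13_23A (by omega) (by omega) (by omega); clear C r1; omega))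
  all_goals (have r3 := C.f13_0; have r4 := C.f13_1; have r5 := C.f13_3; have r6 := C.f13_4; have r7 := C.f13_6; have r8 := C.f13_7)
  all_goals (have u1 : Hd _ := C.f13_2; have u2 : Hd _ := C.f13_5; have u3 : Hd _ := C.f13_8)
  all_goals (rcases r2 with r2 | r2 | r2 <;> try omega)
  all_goals (rcases u1 with u1 | u1 <;> try omega)
  all_goals (rcases u2 with u2 | u2 <;> try omega)
  all_goals (rcases u3 with u3 | u3 <;> try omega)

end Pool.Agent.Helper82.TQ
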